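import Pool.Agent.Helper68.KurBase
set_option autoImplicit false
set_option linter.unusedSimpArgs false
set_option linter.unnecessarySeqFocus false
open Classical Finset

/-! Insertion of a 4-cycle: double counting, for MP_1448dd_pr. -/

namespace Pool.Agent.Helper39.Kur
open Pool.Agent.Helper68.Kur

set_option linter.unusedSectionVars false

section basic
variable {V : Type} [Fintype V]

/-- degree as a sum of indicators -/
theorem card_filter_eq_sum (G : SimpleGraph V) (v : V) :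
    (Finset.univ.filter (fun w => G.Adj v w)).card = ∑ w, (if G.Adj v w then 1 else 0) := by
  rw [Finset.card_filter]

theorem mem_Cub (G : SimpleGraph V) :
    G ∈ Cub V ↔ ∀ v : V, (Finset.univ.filter (fun w => G.Adj v w)).card = 3 := by
  simp [Cub]

theorem del_deg (G : SimpleGraph V) (p q r s x : V) (hpq : G.Adj p q) (hrs : G.Adj r s)
    (h1 : p ≠ r) (h2 : p ≠ s) (h3 : q ≠ r) (h4 : q ≠ s) :
    (∑ y, (if (delE (delE G p q) r s).Adj x y then 1 else 0)) +
      ((if x = p then 1 else 0) + (if x = q then 1 else 0) + (if x = r then 1 else 0) +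
        (if x = s then 1 else 0)) = ∑ y, (if G.Adj x y then 1 else 0 : ℕ) := by
  have hpq' : p ≠ q := hpq.ne
  have hrs' : r ≠ s := hrs.ne
  have key : ∀ y, (if G.Adj x y then 1 else 0 : ℕ) =
      (if (delE (delE G p q) r s).Adj x y then 1 else 0) +
      ((if y = q then (if x = p then 1 else 0) else 0) + (if y = p then (if x = q then 1 else 0) else 0) +
       (if y = s then (if x = r then 1 else 0) else 0) +
        (if y = r then (if x = s then 1 else 0) else 0)) := by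
    intro y
    have hd : (delE (delE G p q) r s).Adj x y ↔ G.Adj x y ∧
        ¬ ((x = p ∧ y = q) ∨ (x = q ∧ y = p)) ∧ ¬ ((x = r ∧ y = s) ∨ (x = s ∧ y = r)) := by
      simp only [delE]; tauto
    by_cases hG : G.Adj x y
    · by_cases e1 : x = p ∧ y = q
      · obtain ⟨rfl, rfl⟩ := e1
        have : ¬ (delE (delE G x y) r s).Adj x y := by rw [hd]; tauto
        simp [hG, this, hpq', hpq'.symm, h1, h2, h3, h4]
      by_cases e2 : x = q ∧ y = p
      · obtain ⟨rfl, rfl⟩ := e2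
        have : ¬ (delE (delE G y x) r s).Adj x y := by rw [hd]; tauto
        simp [hG, this, hpq', hpq'.symm, h1, h2, h3, h4]
      by_cases e3 : x = r ∧ y = s
      · obtain ⟨rfl, rfl⟩ := e3
        have : ¬ (delE (delE G p q) x y).Adj x y := by rw [hd]; tauto
        simp [hG, this, hrs', hrs'.symm, h1.symm, h2.symm, h3.symm, h4.symm]
      by_cases e4 : x = s ∧ y = r
      · obtain ⟨rfl, rfl⟩ := e4
        have : ¬ (delE (delE G p q) y x).Adj x y := by rw [hd]; tauto
        simp [hG, this, hrs', hrs'.symm, h1.symm, h2.symm, h3.symm, h4.symm]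
      have : (delE (delE G p q) r s).Adj x y := by rw [hd]; tauto
      simp only [hG, this, if_true]
      have f1 : (if y = q then (if x = p then 1 else 0) else 0 : ℕ) = 0 := by
        by_cases a : y = q <;> by_cases b : x = p <;> simp [a, b] <;> exact e1 ⟨b, a⟩
      have f2 : (if y = p then (if x = q then 1 else 0) else 0 : ℕ) = 0 := by
        by_cases a : y = p <;> by_cases b : x = q <;> simp [a, b] <;> exact e2 ⟨b, a⟩
      have f3 : (if y = s then (if x = r then 1 else 0) else 0 : ℕ) = 0 := by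
        by_cases a : y = s <;> by_cases b : x = r <;> simp [a, b] <;> exact e3 ⟨b, a⟩
      have f4 : (if y = r then (if x = s then 1 else 0) else 0 : ℕ) = 0 := by
        by_cases a : y = r <;> by_cases b : x = s <;> simp [a, b] <;> exact e4 ⟨b, a⟩
      rw [f1, f2, f3, f4]
    · have : ¬ (delE (delE G p q) r s).Adj x y := by rw [hd]; tauto
      simp only [hG, this, if_false]
      have f1 : (if y = q then (if x = p then 1 else 0) else 0 : ℕ) = 0 := by
        by_cases a : y = q <;> by_cases b : x = p <;> simp [a, b] <;>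
          exact hG (by rw [a, b]; exact hpq)
      have f2 : (if y = p then (if x = q then 1 else 0) else 0 : ℕ) = 0 := by
        by_cases a : y = p <;> by_cases b : x = q <;> simp [a, b] <;>
          exact hG (by rw [a, b]; exact hpq.symm)
      have f3 : (if y = s then (if x = r then 1 else 0) else 0 : ℕ) = 0 := by
        by_cases a : y = s <;> by_cases b : x = r <;> simp [a, b] <;>
          exact hG (by rw [a, b]; exact hrs)
      have f4 : (if y = r then (if x = s then 1 else 0) else 0 : ℕ) = 0 := by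
        by_cases a : y = r <;> by_cases b : x = s <;> simp [a, b] <;>
          exact hG (by rw [a, b]; exact hrs.symm)
      rw [f1, f2, f3, f4]
  rw [Finset.sum_congr rfl (fun y _ => key y), Finset.sum_add_distrib, Finset.sum_add_distrib,
    Finset.sum_add_distrib, Finset.sum_add_distrib]
  simp

/-- `ins` of a cubic graph is cubic -/
theorem ins_cubic (G : SimpleGraph V) (hG : G ∈ Cub V) (p q r s : V)
    (hpq : G.Adj p q) (hrs : G.Adj r s)
    (h1 : p ≠ r) (h2 : p ≠ s) (h3 : q ≠ r) (h4 : q ≠ s) : ins G p q r s ∈ Cub (V ⊕ Fin 4) := by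
  rw [mem_Cub] at hG ⊢
  rintro (x | k)
  · rw [card_filter_eq_sum, Fintype.sum_sum_type]
    have e1 : ∀ y : V, (ins G p q r s).Adj (Sum.inl x) (Sum.inl y) =
      (delE (delE G p q) r s).Adj x y := fun y => rfl
    have e2 : ∀ k : Fin 4, (ins G p q r s).Adj (Sum.inl x) (Sum.inr k) =
      ((k = 0 ∧ x = p) ∨ (k = 1 ∧ x = r) ∨ (k = 2 ∧ x = q) ∨ (k = 3 ∧ x = s)) := fun y => rfl
    simp only [e1, e2]
    have := del_deg G p q r s x hpq hrs h1 h2 h3 h4
    rw [← card_filter_eq_sum G x, hG x] at this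
    rw [Fin.sum_univ_four]
    simp only [Fin.isValue, true_and, Fin.reduceEq, false_and, or_false, false_or]
    simp at this ⊢
    omega
  · rw [card_filter_eq_sum, Fintype.sum_sum_type]
    have e1 : ∀ y : V, (ins G p q r s).Adj (Sum.inr k) (Sum.inl y) =
      ((k = 0 ∧ y = p) ∨ (k = 1 ∧ y = r) ∨ (k = 2 ∧ y = q) ∨ (k = 3 ∧ y = s)) := fun y => rfl
    have e2 : ∀ i : Fin 4, (ins G p q r s).Adj (Sum.inr k) (Sum.inr i) =
      ((k = 0 ∧ i = 1) ∨ (k = 1 ∧ i = 0) ∨ (k = 2 ∧ i = 3) ∨ (k = 3 ∧ i = 2) ∨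
      (k = 0 ∧ i = 2) ∨ (k = 2 ∧ i = 0) ∨ (k = 1 ∧ i = 3) ∨ (k = 3 ∧ i = 1)) := fun y => rfl
    simp only [e1, e2]
    rw [Fin.sum_univ_four]
    fin_cases k <;> simp

/-- transport of a graph along an equivalence -/
def tr {W : Type} (σ : V ≃ W) (G : SimpleGraph V) : SimpleGraph W := G.comap σ.symm

theorem tr_adj {W : Type} (σ : V ≃ W) (G : SimpleGraph V) (a b : W) :
    (tr σ G).Adj a b ↔ G.Adj (σ.symm a) (σ.symm b) := Iff.rfl

theorem tr_inj {W : Type} (σ : V ≃ W) (G G' : SimpleGraph V) (h : tr σ G = tr σ G') : G = G' := by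
  ext a b
  have := congrArg (fun H : SimpleGraph W => H.Adj (σ a) (σ b)) h
  simp only [tr_adj, Equiv.symm_apply_apply] at this
  exact this.to_iff

theorem tr_cubic {W : Type} [Fintype W] (σ : V ≃ W) (G : SimpleGraph V) (hG : G ∈ Cub V) :
    tr σ G ∈ Cub W := by
  rw [mem_Cub] at hG ⊢
  intro w
  rw [card_filter_eq_sum, ← hG (σ.symm w), card_filter_eq_sum]
  rw [← Equiv.sum_comp σ]
  apply Finset.sum_congr rfl
  intro y _
  simp only [tr_adj, Equiv.symm_apply_apply]

theorem tr_nonSync {W : Type} [Fintype W] (σ : V ≃ W) (G : SimpleGraph V) (hG : NonSync G) :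
    NonSync (tr σ G) := by
  obtain ⟨θ, h1, i, j, hij⟩ := hG
  refine ⟨θ ∘ σ.symm, ?_, σ i, σ j, ?_⟩
  · have hc : Continuous (fun φ : W → ℝ => (φ ∘ σ : V → ℝ)) :=
      continuous_pi (fun v => continuous_apply (σ v))
    have hθ : (fun φ : W → ℝ => (φ ∘ σ : V → ℝ)) (θ ∘ σ.symm) = θ := by
      funext v; simp
    have h2 := IsLocalMin.comp_continuous (g := fun φ : W → ℝ => (φ ∘ σ : V → ℝ))
      (b := θ ∘ σ.symm) (hθ.symm ▸ h1) hc.continuousAt
    convert h2 using 1
    funext φ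
    simp only [Function.comp]
    congr 1
    rw [← Equiv.sum_comp σ]
    apply Finset.sum_congr rfl
    intro a _
    rw [← Equiv.sum_comp σ]
    apply Finset.sum_congr rfl
    intro b _
    simp only [tr_adj, Equiv.symm_apply_apply]
  · intro k
    simpa using hij k

theorem mem_c4 (G : SimpleGraph V) (x : V × V × V × V) :
    x ∈ c4 G ↔ x.1 ≠ x.2.2.1 ∧ x.2.1 ≠ x.2.2.2 ∧
    G.Adj x.1 x.2.1 ∧ G.Adj x.2.1 x.2.2.1 ∧ G.Adj x.2.2.1 x.2.2.2 ∧ G.Adj x.2.2.2 x.1 := by
  simp [c4]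

theorem tr_c4 {W : Type} [Fintype W] (σ : V ≃ W) (G : SimpleGraph V) :
    (c4 (tr σ G)).card ≤ (c4 G).card := by
  apply Finset.card_le_card_of_injOn
    (fun x => (σ.symm x.1, σ.symm x.2.1, σ.symm x.2.2.1, σ.symm x.2.2.2))
  · intro x hx
    rw [Finset.mem_coe, mem_c4] at hx ⊢
    obtain ⟨h1, h2, h3, h4, h5, h6⟩ := hx
    exact ⟨fun h => h1 (σ.symm.injective h), fun h => h2 (σ.symm.injective h), h3, h4, h5, h6⟩
  · rintro ⟨a, b, c, d⟩ _ ⟨a', b', c', d'⟩ _ h
    simp only [Prod.mk.injEq, EmbeddingLike.apply_eq_iff_eq] at h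
    obtain ⟨rfl, rfl, rfl, rfl⟩ := h
    rfl

/-- at most 27 labelled 4-cycles of a cubic graph start at a given vertex -/
theorem c4_start (G : SimpleGraph V) (hG : G ∈ Cub V) (v : V) :
    ((c4 G).filter (fun x => x.1 = v)).card ≤ 27 := by
  rw [mem_Cub] at hG
  let N : V → Finset V := fun v => Finset.univ.filter (fun w => G.Adj v w)
  have hN : ∀ v, (N v).card = 3 := hG
  let S : Finset (Σ _ : V, Σ _ : V, V) :=
    (N v).sigma (fun b => (N b).sigma (fun c => N c))
  have hS : S.card = 27 := by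
    simp only [S, Finset.card_sigma, hN]
    simp [hN]
  rw [← hS]
  apply Finset.card_le_card_of_injOn (fun x => ⟨x.2.1, x.2.2.1, x.2.2.2⟩)
  · intro x hx
    rw [Finset.mem_coe, Finset.mem_filter, mem_c4] at hx
    obtain ⟨⟨-, -, h3, h4, h5, h6⟩, rfl⟩ := hx
    simp only [S, Finset.mem_coe, Finset.mem_sigma, N, Finset.mem_filter, Finset.mem_univ, true_and]
    exact ⟨h3, h4, h5⟩
  · rintro ⟨a, b, c, d⟩ hx ⟨a', b', c', d'⟩ hy h
    rw [Finset.mem_coe, Finset.mem_filter] at hx hy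
    have ha : a = a' := hx.2.trans hy.2.symm
    cases h
    subst ha
    rfl

/-- rotation of a labelled 4-cycle -/
def rot (x : V × V × V × V) : V × V × V × V := (x.2.1, x.2.2.1, x.2.2.2, x.1)

theorem rot_inj : Function.Injective (rot (V := V)) := by
  rintro ⟨a, b, c, d⟩ ⟨a', b', c', d'⟩ h
  simp only [rot, Prod.mk.injEq] at h
  obtain ⟨rfl, rfl, rfl, rfl⟩ := h
  rfl

theorem rot_c4 (G : SimpleGraph V) (x : V × V × V × V) (hx : x ∈ c4 G) : rot x ∈ c4 G := by
  rw [mem_c4] at hx ⊢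
  obtain ⟨h1, h2, h3, h4, h5, h6⟩ := hx
  exact ⟨h2, h1.symm, h4, h5, h6, h3⟩

theorem c4_pos (G : SimpleGraph V) (hG : G ∈ Cub V) (S : Finset V) (k : ℕ) :
    ((c4 G).filter (fun x => (rot^[k] x).1 ∈ S)).card ≤ 27 * S.card := by
  have h1 : ((c4 G).filter (fun x => x.1 ∈ S)).card ≤ 27 * S.card := by
    have : (c4 G).filter (fun x => x.1 ∈ S) = S.biUnion (fun v => (c4 G).filter (fun x => x.1 = v)) := by
      ext x
      simp only [Finset.mem_filter, Finset.mem_biUnion]
      constructor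
      · rintro ⟨h1, h2⟩
        exact ⟨_, h2, h1, rfl⟩
      · rintro ⟨v, hv, h1, rfl⟩
        exact ⟨h1, hv⟩
    rw [this]
    calc _ ≤ ∑ v ∈ S, ((c4 G).filter (fun x => x.1 = v)).card := Finset.card_biUnion_le
      _ ≤ ∑ v ∈ S, 27 := Finset.sum_le_sum (fun v _ => c4_start G hG v)
      _ = 27 * S.card := by simp [mul_comm]
  refine le_trans ?_ h1
  apply Finset.card_le_card_of_injOn (rot^[k])
  · intro x hx
    rw [Finset.mem_coe, Finset.mem_filter] at hx ⊢
    refine ⟨?_, hx.2⟩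
    have : ∀ k : ℕ, ∀ x ∈ c4 G, rot^[k] x ∈ c4 G := by
      intro k
      induction k with
      | zero => intro x hx; exact hx
      | succ k ih => intro x hx; rw [Function.iterate_succ_apply]; exact ih _ (rot_c4 G x hx)
    exact this k x hx.1
  · exact (rot_inj.iterate k).injOn

/-- number of 4-cycles after the insertion -/
theorem c4_ins (G : SimpleGraph V) (hG : G ∈ Cub V) (p q r s : V)
    (hpq : G.Adj p q) (hrs : G.Adj r s)
    (h1 : p ≠ r) (h2 : p ≠ s) (h3 : q ≠ r) (h4 : q ≠ s) :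
    (c4 (ins G p q r s)).card ≤ (c4 G).card + 432 := by
  have hc := ins_cubic G hG p q r s hpq hrs h1 h2 h3 h4
  let S : Finset (V ⊕ Fin 4) := Finset.univ.image Sum.inr
  have hS : S.card = 4 := by
    simp only [S]
    rw [Finset.card_image_of_injective _ Sum.inr_injective]; simp
  have hmem : ∀ z : V ⊕ Fin 4, z ∉ S → ∃ v, z = Sum.inl v := by
    rintro (v | k) hz
    · exact ⟨v, rfl⟩
    · exact absurd (Finset.mem_image_of_mem _ (Finset.mem_univ k)) hz
  let B : Finset ((V ⊕ Fin 4) × (V ⊕ Fin 4) × (V ⊕ Fin 4) × (V ⊕ Fin 4)) :=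
    (c4 G).image (fun x => (Sum.inl x.1, Sum.inl x.2.1, Sum.inl x.2.2.1, Sum.inl x.2.2.2))
  have hB : B.card ≤ (c4 G).card := Finset.card_image_le
  have hsub : c4 (ins G p q r s) ⊆ B ∪
      (((c4 (ins G p q r s)).filter (fun x => (rot^[0] x).1 ∈ S)) ∪
      ((c4 (ins G p q r s)).filter (fun x => (rot^[1] x).1 ∈ S)) ∪
      ((c4 (ins G p q r s)).filter (fun x => (rot^[2] x).1 ∈ S)) ∪
      ((c4 (ins G p q r s)).filter (fun x => (rot^[3] x).1 ∈ S))) := by
    rintro ⟨a, b, c, d⟩ hx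
    simp only [Finset.mem_union, Finset.mem_filter, hx, true_and]
    by_cases ha : a ∈ S
    · right; left; left; left; exact ha
    by_cases hb : b ∈ S
    · right; left; left; right; exact hb
    by_cases hc' : c ∈ S
    · right; left; right; exact hc'
    by_cases hd : d ∈ S
    · right; right; exact hd
    left
    obtain ⟨a, rfl⟩ := hmem a ha
    obtain ⟨b, rfl⟩ := hmem b hb
    obtain ⟨c, rfl⟩ := hmem c hc'
    obtain ⟨d, rfl⟩ := hmem d hd
    simp only [B, Finset.mem_image]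
    refine ⟨(a, b, c, d), ?_, rfl⟩
    rw [mem_c4] at hx ⊢
    obtain ⟨g1, g2, g3, g4, g5, g6⟩ := hx
    exact ⟨fun h => g1 (congrArg Sum.inl h), fun h => g2 (congrArg Sum.inl h),
      g3.1.1, g4.1.1, g5.1.1, g6.1.1⟩
  have hpos : ∀ k, ((c4 (ins G p q r s)).filter (fun x => (rot^[k] x).1 ∈ S)).card ≤ 27 * 4 := by
    intro k
    have := c4_pos _ hc S k
    rw [hS] at this
    convert this
  calc (c4 (ins G p q r s)).card ≤ _ := Finset.card_le_card hsub
    _ ≤ B.card + _ := Finset.card_union_le _ _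
    _ ≤ (c4 G).card + (27 * 4 + 27 * 4 + 27 * 4 + 27 * 4) := by
        refine add_le_add hB ?_
        refine (Finset.card_union_le _ _).trans (add_le_add ?_ (hpos 3))
        refine (Finset.card_union_le _ _).trans (add_le_add ?_ (hpos 2))
        exact (Finset.card_union_le _ _).trans (add_le_add (hpos 0) (hpos 1))
    _ = (c4 G).card + 432 := by norm_num

/-- `ins` is injective -/
theorem ins_inj (G G' : SimpleGraph V) (p q r s p' q' r' s' : V)
    (hpq : G.Adj p q) (hrs : G.Adj r s) (hpq' : G'.Adj p' q') (hrs' : G'.Adj r' s')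
    (h : ins G p q r s = ins G' p' q' r' s') : (G, p, q, r, s) = (G', p', q', r', s') := by
  have hadj : ∀ a b, (ins G p q r s).Adj a b ↔ (ins G' p' q' r' s').Adj a b := by
    intro a b; rw [h]
  have e1 : p = p' := by
    have := (hadj (Sum.inl p) (Sum.inr 0)).mp (Or.inl ⟨rfl, rfl⟩)
    have e : (ins G' p' q' r' s').Adj (Sum.inl p) (Sum.inr 0) =
      (((0 : Fin 4) = 0 ∧ p = p') ∨ ((0 : Fin 4) = 1 ∧ p = r') ∨ ((0 : Fin 4) = 2 ∧ p = q') ∨
        ((0 : Fin 4) = 3 ∧ p = s')) := rfl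
    rw [e] at this
    simpa using this
  have e2 : r = r' := by
    have := (hadj (Sum.inl r) (Sum.inr 1)).mp (Or.inr (Or.inl ⟨rfl, rfl⟩))
    have e : (ins G' p' q' r' s').Adj (Sum.inl r) (Sum.inr 1) =
      (((1 : Fin 4) = 0 ∧ r = p') ∨ ((1 : Fin 4) = 1 ∧ r = r') ∨ ((1 : Fin 4) = 2 ∧ r = q') ∨
        ((1 : Fin 4) = 3 ∧ r = s')) := rfl
    rw [e] at this
    simpa using this
  have e3 : q = q' := by
    have := (hadj (Sum.inl q) (Sum.inr 2)).mp (Or.inr (Or.inr (Or.inl ⟨rfl, rfl⟩)))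
    have e : (ins G' p' q' r' s').Adj (Sum.inl q) (Sum.inr 2) =
      (((2 : Fin 4) = 0 ∧ q = p') ∨ ((2 : Fin 4) = 1 ∧ q = r') ∨ ((2 : Fin 4) = 2 ∧ q = q') ∨
        ((2 : Fin 4) = 3 ∧ q = s')) := rfl
    rw [e] at this
    simpa using this
  have e4 : s = s' := by
    have := (hadj (Sum.inl s) (Sum.inr 3)).mp (Or.inr (Or.inr (Or.inr ⟨rfl, rfl⟩)))
    have e : (ins G' p' q' r' s').Adj (Sum.inl s) (Sum.inr 3) =
      (((3 : Fin 4) = 0 ∧ s = p') ∨ ((3 : Fin 4) = 1 ∧ s = r') ∨ ((3 : Fin 4) = 2 ∧ s = q') ∨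
        ((3 : Fin 4) = 3 ∧ s = s')) := rfl
    rw [e] at this
    simpa using this
  subst e1 e2 e3 e4
  have hG : G = G' := by
    ext x y
    have h5 := hadj (Sum.inl x) (Sum.inl y)
    have e : ∀ G : SimpleGraph V, (ins G p q r s).Adj (Sum.inl x) (Sum.inl y) =
      (delE (delE G p q) r s).Adj x y := fun _ => rfl
    rw [e, e] at h5
    simp only [delE] at h5
    by_cases c1 : x = p ∧ y = q
    · obtain ⟨rfl, rfl⟩ := c1; exact ⟨fun _ => hpq', fun _ => hpq⟩
    by_cases c2 : x = q ∧ y = p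
    · obtain ⟨rfl, rfl⟩ := c2; exact ⟨fun _ => hpq'.symm, fun _ => hpq.symm⟩
    by_cases c3 : x = r ∧ y = s
    · obtain ⟨rfl, rfl⟩ := c3; exact ⟨fun _ => hrs', fun _ => hrs⟩
    by_cases c4 : x = s ∧ y = r
    · obtain ⟨rfl, rfl⟩ := c4; exact ⟨fun _ => hrs'.symm, fun _ => hrs.symm⟩
    tauto
  rw [hG]

end basic

/-- an equivalence extending a given embedding on the new vertices -/
theorem exists_ext (n : ℕ) (i : Fin 4 ↪ Fin (n + 4)) :
    ∃ σ : Fin n ⊕ Fin 4 ≃ Fin (n + 4), ∀ k, σ (Sum.inr k) = i k := by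
  have h1 : Fintype.card {x // x ∉ Set.range i} = n := by
    rw [Fintype.card_subtype_compl]
    have : Fintype.card {x // x ∈ Set.range i} = 4 := by
      rw [← Fintype.card_congr (Equiv.ofInjective i i.injective), Fintype.card_fin]
    rw [this]; simp
  let e1 : Fin n ≃ {x // x ∉ Set.range i} := (Fintype.equivFinOfCardEq h1).symm
  let e2 : Fin 4 ≃ {x // x ∈ Set.range i} := Equiv.ofInjective i i.injective
  let e3 : Fin n ⊕ Fin 4 ≃ {x // x ∈ Set.range i} ⊕ {x // x ∉ Set.range i} :=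
    (Equiv.sumComm _ _).trans (Equiv.sumCongr e2 e1)
  refine ⟨e3.trans (Equiv.sumCompl (· ∈ Set.range i)), ?_⟩
  intro k
  simp [e3, e2]

theorem insertion (n K : Nat)
    (T : Finset (SimpleGraph (Fin n) × Fin n × Fin n × Fin n × Fin n))
    (hT : ∀ x ∈ T, x.1 ∈ Cub (Fin n) ∧ x.1.Adj x.2.1 x.2.2.1 ∧ x.1.Adj x.2.2.2.1 x.2.2.2.2 ∧
      x.2.1 ≠ x.2.2.2.1 ∧ x.2.1 ≠ x.2.2.2.2 ∧ x.2.2.1 ≠ x.2.2.2.1 ∧ x.2.2.1 ≠ x.2.2.2.2 ∧
      (c4 x.1).card ≤ K ∧ NonSync (ins x.1 x.2.1 x.2.2.1 x.2.2.2.1 x.2.2.2.2)) :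
    (n+1)*(n+2)*(n+3)*(n+4) * T.card ≤
      (K+500) * ((Cub (Fin (n+4))).filter (fun H => NonSync H)).card := by
  choose σ hσ using exists_ext n
  let F : (Fin 4 ↪ Fin (n + 4)) × (SimpleGraph (Fin n) × Fin n × Fin n × Fin n × Fin n) →
      SimpleGraph (Fin (n + 4)) := fun y =>
    tr (σ y.1) (ins y.2.1 y.2.2.1 y.2.2.2.1 y.2.2.2.2.1 y.2.2.2.2.2)
  let S : Finset ((Fin 4 ↪ Fin (n + 4)) × (SimpleGraph (Fin n) × Fin n × Fin n × Fin n × Fin n)) :=
    Finset.univ ×ˢ T
  have hScard : S.card = (n+1)*(n+2)*(n+3)*(n+4) * T.card := by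
    simp only [S, Finset.card_product, Finset.card_univ]
    congr 1
    rw [Fintype.card_embedding_eq]
    simp only [Fintype.card_fin]
    simp [Nat.descFactorial]
    ring
  rw [← hScard]
  have hmaps : ∀ y ∈ S, F y ∈ (Cub (Fin (n+4))).filter (fun H => NonSync H) := by
    rintro ⟨i, G, p, q, r, s⟩ hy
    have hyT : (G, p, q, r, s) ∈ T := (Finset.mem_product.mp hy).2
    obtain ⟨g1, g2, g3, g4, g5, g6, g7, g8, g9⟩ := hT _ hyT
    rw [Finset.mem_filter]
    exact ⟨tr_cubic _ _ (ins_cubic G g1 p q r s g2 g3 g4 g5 g6 g7), tr_nonSync _ _ g9⟩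
  refine Finset.card_le_mul_card_image_of_maps_to hmaps (K + 500) ?_
  intro H hH
  by_cases hne : (S.filter (fun y => F y = H)).Nonempty
  · have hcard : (S.filter (fun y => F y = H)).card ≤ (c4 H).card := by
      apply Finset.card_le_card_of_injOn (fun y => (y.1 0, y.1 1, y.1 3, y.1 2))
      · rintro ⟨i, G, p, q, r, s⟩ hy
        rw [Finset.mem_coe, Finset.mem_filter] at hy
        obtain ⟨hy, rfl⟩ := hy
        rw [Finset.mem_coe, mem_c4]
        have hs : ∀ k, (σ i).symm (i k) = Sum.inr k := by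
          intro k; rw [Equiv.symm_apply_eq, hσ]
        have hins : ∀ a b : Fin 4, (ins G p q r s).Adj (Sum.inr a) (Sum.inr b) =
          ((a = 0 ∧ b = 1) ∨ (a = 1 ∧ b = 0) ∨ (a = 2 ∧ b = 3) ∨ (a = 3 ∧ b = 2) ∨
            (a = 0 ∧ b = 2) ∨ (a = 2 ∧ b = 0) ∨ (a = 1 ∧ b = 3) ∨ (a = 3 ∧ b = 1)) :=
          fun _ _ => rfl
        refine ⟨?_, ?_, ?_, ?_, ?_, ?_⟩
        · simp
        · simp
        · show (ins G p q r s).Adj ((σ i).symm (i 0)) ((σ i).symm (i 1))
          rw [hs, hs, hins]; simp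
        · show (ins G p q r s).Adj ((σ i).symm (i 1)) ((σ i).symm (i 3))
          rw [hs, hs, hins]; simp
        · show (ins G p q r s).Adj ((σ i).symm (i 3)) ((σ i).symm (i 2))
          rw [hs, hs, hins]; simp
        · show (ins G p q r s).Adj ((σ i).symm (i 2)) ((σ i).symm (i 0))
          rw [hs, hs, hins]; simp
      · rintro ⟨i, G, p, q, r, s⟩ hy ⟨i', G', p', q', r', s'⟩ hy' h
        rw [Finset.mem_coe, Finset.mem_filter] at hy hy'
        obtain ⟨hy, hF⟩ := hy
        obtain ⟨hy', hF'⟩ := hy'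
        have hyT : (G, p, q, r, s) ∈ T := (Finset.mem_product.mp hy).2
        have hyT' : (G', p', q', r', s') ∈ T := (Finset.mem_product.mp hy').2
        obtain ⟨g1, g2, g3, -⟩ := hT _ hyT
        obtain ⟨g1', g2', g3', -⟩ := hT _ hyT'
        simp only [Prod.mk.injEq] at h
        have hi : i = i' := by
          ext k
          fin_cases k
          · exact congrArg Fin.val h.1
          · exact congrArg Fin.val h.2.1
          · exact congrArg Fin.val h.2.2.2
          · exact congrArg Fin.val h.2.2.1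
        subst hi
        have h1 := tr_inj _ _ _ (hF.trans hF'.symm)
        have h2 := ins_inj G G' p q r s p' q' r' s' g2 g3 g2' g3' h1
        rw [h2]
    obtain ⟨⟨i, G, p, q, r, s⟩, hy⟩ := hne
    rw [Finset.mem_filter] at hy
    obtain ⟨hy, rfl⟩ := hy
    have hyT : (G, p, q, r, s) ∈ T := (Finset.mem_product.mp hy).2
    obtain ⟨g1, g2, g3, g4, g5, g6, g7, g8, g9⟩ := hT _ hyT
    have h3 : (c4 (F (i, G, p, q, r, s))).card ≤ (c4 G).card + 432 :=
      (tr_c4 _ _).trans (c4_ins G g1 p q r s g2 g3 g4 g5 g6 g7)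
    simp only at g8
    omega
  · rw [Finset.not_nonempty_iff_eq_empty] at hne
    rw [hne]; simp

end Pool.Agent.Helper39.Kur
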