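import Mathlib
set_option autoImplicit false
open Metric Set Filter Topology

/-! A compact locally connected metric space is locally path connected. -/

namespace Pool.Agent.Helper39.Peano

/-- uniform local connectedness -/
theorem exists_unif (X : Type*) [MetricSpace X] [CompactSpace X] [LocallyConnectedSpace X]
    {e : ℝ} (he : 0 < e) :
    ∃ d > 0, d ≤ e ∧ ∀ x y : X, dist x y < d →
      ∃ C : Set X, IsPreconnected C ∧ x ∈ C ∧ y ∈ C ∧ C ⊆ ball x e := by
  let c : X → Set X := fun x => connectedComponentIn (ball x (e / 2)) x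
  have hx : ∀ x, x ∈ c x := fun x => mem_connectedComponentIn (mem_ball_self (by positivity))
  obtain ⟨d, hd, hdc⟩ := lebesgue_number_lemma_of_metric (s := (univ : Set X)) (c := c)
    isCompact_univ (fun x => isOpen_ball.connectedComponentIn)
    (fun x _ => mem_iUnion.mpr ⟨x, hx x⟩)
  refine ⟨min d e, lt_min hd he, min_le_right _ _, ?_⟩
  intro x y hxy
  obtain ⟨i, hi⟩ := hdc x (mem_univ _)
  have hxc : x ∈ c i := hi (mem_ball_self hd)
  have hyc : y ∈ c i := hi (by rw [mem_ball, dist_comm]; exact lt_of_lt_of_le hxy (min_le_left _ _))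
  refine ⟨c i, isPreconnected_connectedComponentIn, hxc, hyc, ?_⟩
  intro z hz
  have h1 : z ∈ ball i (e / 2) := connectedComponentIn_subset _ _ hz
  have h2 : x ∈ ball i (e / 2) := connectedComponentIn_subset _ _ hxc
  rw [mem_ball] at h1 h2 ⊢
  calc dist z x ≤ dist z i + dist i x := dist_triangle _ _ _
    _ < e / 2 + e / 2 := by rw [dist_comm i x]; linarith
    _ = e := by ring

/-- chains in connected sets -/
theorem exists_chain {X : Type*} [MetricSpace X] {C : Set X} (hC : IsPreconnected C)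
    {x y : X} (hx : x ∈ C) (hy : y ∈ C) {η : ℝ} (hη : 0 < η) :
    ∃ (m : ℕ) (z : ℕ → X), z 0 = x ∧ (∀ j ≥ m, z j = y) ∧ (∀ j, z j ∈ C) ∧
      ∀ j, dist (z j) (z (j + 1)) < η := by
  let R : X → X → Prop := fun u v => u ∈ C ∧ v ∈ C ∧ dist u v < η
  have h1 : Relation.ReflTransGen R x y := by
    apply hC.induction₂ (fun u v => Relation.ReflTransGen R u v) _ _ _ hx hy
    · intro u hu
      have : ∀ᶠ v in 𝓝[C] u, v ∈ ball u η := mem_nhdsWithin_of_mem_nhds (ball_mem_nhds u hη)
      filter_upwards [this, self_mem_nhdsWithin] with v hv hvC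
      exact Relation.ReflTransGen.single ⟨hu, hvC, by rw [dist_comm]; exact hv⟩
    · intro u v w _ _ _ huv hvw
      exact huv.trans hvw
    · intro u v _ _ huv
      have hsymm : ∀ a b, R a b → R b a :=
        fun a b ⟨ha, hb, hab⟩ => ⟨hb, ha, by rw [dist_comm]; exact hab⟩
      clear * - huv hsymm
      induction huv with
      | refl => exact Relation.ReflTransGen.refl
      | tail _ h ih => exact Relation.ReflTransGen.head (hsymm _ _ h) ih
  clear hx
  induction h1 using Relation.ReflTransGen.head_induction_on with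
  | refl => exact ⟨0, fun _ => y, rfl, fun _ _ => rfl, fun _ => hy, fun _ => by simpa using hη⟩
  | @head u v h _ ih =>
    obtain ⟨hu, hv, huv⟩ := h
    obtain ⟨m, z, hz0, hzm, hzC, hzd⟩ := ih
    refine ⟨m + 1, fun j => if j = 0 then u else z (j - 1), by simp, ?_, ?_, ?_⟩
    · intro j hj
      have : j ≠ 0 := by omega
      simp only [this, if_false]
      exact hzm _ (by omega)
    · intro j
      by_cases hj : j = 0
      · simp [hj, hu]
      · simp only [hj, if_false]; exact hzC _
    · intro j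
      by_cases hj : j = 0
      · subst hj; simp [hz0, huv]
      · have h2 : j + 1 ≠ 0 := by omega
        simp only [hj, h2, if_false]
        have h3 : j + 1 - 1 = (j - 1) + 1 := by omega
        rw [h3]; exact hzd _

/-- the refinement step -/
theorem exists_step (X : Type*) [MetricSpace X] (a b : X) {e d d' : ℝ} (hd' : 0 < d') (he : 0 < e)
    (hed : ∀ x y : X, dist x y < d → ∃ C : Set X, IsPreconnected C ∧ x ∈ C ∧ y ∈ C ∧ C ⊆ ball x e)
    (N : ℕ) (g : ℕ → X) (hN : 0 < N) (h0 : g 0 = a) (h1 : ∀ i ≥ N, g i = b)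
    (hg : ∀ i, dist (g i) (g (i + 1)) < d) :
    ∃ (M : ℕ) (g' : ℕ → X), 0 < M ∧ g' 0 = a ∧ (∀ i ≥ M * N, g' i = b) ∧
      (∀ i, dist (g' i) (g' (i + 1)) < d') ∧ ∀ i, dist (g' i) (g (i / M)) < e := by
  choose C hC1 hC2 hC3 hC4 using fun i => hed (g i) (g (i + 1)) (hg i)
  choose m z hz0 hzm hzC hzd using fun i => exists_chain (hC1 i) (hC2 i) (hC3 i) hd'
  let M := (Finset.range N).sup m + 1
  have hM : 0 < M := Nat.succ_pos _
  have hmM : ∀ i < N, m i ≤ M := fun i hi =>
    (Finset.le_sup (f := m) (Finset.mem_range.mpr hi)).trans (Nat.le_succ _)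
  let g' : ℕ → X := fun k => if k / M < N then z (k / M) (k % M) else b
  have hg'1 : ∀ k, k / M < N → g' k = z (k / M) (k % M) := fun k hk => by simp only [g', hk, if_true]
  have hg'2 : ∀ k, N ≤ k / M → g' k = b := fun k hk => by
    simp only [g', not_lt.mpr hk, if_false]
  refine ⟨M, g', hM, ?_, ?_, ?_, ?_⟩
  · rw [hg'1 0 (by simpa using hN)]; simp [hz0, h0]
  · intro i hi
    apply hg'2
    rw [Nat.le_div_iff_mul_le hM, mul_comm]; exact hi
  · intro k
    by_cases hk : k / M < N
    · by_cases hj : k % M + 1 < M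
      · have e1 : (k + 1) / M = k / M := by
          rw [Nat.div_eq_iff hM]
          have := Nat.div_add_mod k M
          rw [mul_comm] at this
          constructor
          · omega
          · omega
        have e2 : (k + 1) % M = k % M + 1 := by
          have h3 := Nat.div_add_mod (k + 1) M
          have h4 := Nat.div_add_mod k M
          rw [e1] at h3; omega
        rw [hg'1 k hk, hg'1 (k + 1) (by rw [e1]; exact hk), e1, e2]
        exact hzd _ _
      · have hlt := Nat.mod_lt k hM
        have hj' : k % M + 1 = M := by omega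
        have h4 := Nat.div_add_mod k M
        have h5 : k + 1 = M * (k / M + 1) := by rw [mul_add]; omega
        have e1 : (k + 1) / M = k / M + 1 := by rw [h5, Nat.mul_div_cancel_left _ hM]
        have e2 : (k + 1) % M = 0 := by rw [h5, Nat.mul_mod_right]
        have e3 : g' (k + 1) = z (k / M) (k % M + 1) := by
          rw [hj', hzm (k / M) M (hmM _ hk)]
          by_cases hk' : (k + 1) / M < N
          · rw [hg'1 _ hk', e1, e2, hz0]
          · rw [hg'2 _ (not_lt.mp hk')]
            rw [h1 _ (by rw [e1] at hk'; omega)]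
        rw [e3, hg'1 k hk]
        exact hzd _ _
    · have hk2 : N ≤ (k + 1) / M := (not_lt.mp hk).trans (Nat.div_le_div_right (Nat.le_succ k))
      rw [hg'2 k (not_lt.mp hk), hg'2 (k + 1) hk2]
      simpa using hd'
  · intro k
    by_cases hk : k / M < N
    · rw [hg'1 k hk]; exact hC4 _ (hzC _ _)
    · rw [hg'2 k (not_lt.mp hk), h1 _ (not_lt.mp hk)]; simpa using he

/-- uniform local path connectedness -/
theorem exists_joinedIn (X : Type*) [MetricSpace X] [CompactSpace X] [LocallyConnectedSpace X]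
    {e : ℝ} (he : 0 < e) :
    ∃ d > 0, ∀ a b : X, dist a b < d → JoinedIn (ball a (2 * e)) a b := by
  have hen : ∀ n : ℕ, 0 < e / 2 / 2 ^ n := fun n => by positivity
  choose δ hδ0 hδe hδ using fun n => exists_unif X (hen n)
  refine ⟨δ 0, hδ0 0, ?_⟩
  intro a b hab
  -- states
  let P : ℕ → (ℕ × (ℕ → X)) → Prop := fun n s =>
    0 < s.1 ∧ s.2 0 = a ∧ (∀ i ≥ s.1, s.2 i = b) ∧ ∀ i, dist (s.2 i) (s.2 (i + 1)) < δ n
  let s0 : {s // P 0 s} := ⟨(1, fun i => if i = 0 then a else b), by
    refine ⟨Nat.one_pos, by simp, ?_, ?_⟩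
    · intro i hi
      have : i ≠ 0 := by simp only [ge_iff_le] at hi; omega
      simp [this]
    · intro i
      by_cases hi : i = 0
      · simp [hi, hab]
      · simp [hi, hδ0 0]⟩
  have hstep : ∀ (n : ℕ) (s : {s // P n s}), ∃ s' : {s // P (n + 1) s}, ∃ M : ℕ, 0 < M ∧
      s'.1.1 = M * s.1.1 ∧ ∀ i, dist (s'.1.2 i) (s.1.2 (i / M)) < e / 2 / 2 ^ n := by
    rintro n ⟨⟨N, g⟩, hN, h0, h1, hg⟩
    obtain ⟨M, g', hM, h0', h1', hg', hgg⟩ := exists_step X a b (hδ0 (n + 1)) (hen n) (hδ n)
      N g hN h0 h1 hg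
    exact ⟨⟨(M * N, g'), Nat.mul_pos hM hN, h0', h1', hg'⟩, M, hM, rfl, hgg⟩
  choose F M hM hF1 hF2 using hstep
  let f : ∀ n, {s // P n s} := fun n => Nat.rec s0 (fun n s => F n s) n
  have hf : ∀ n, f (n + 1) = F n (f n) := fun n => rfl
  let N : ℕ → ℕ := fun n => (f n).1.1
  let g : ℕ → ℕ → X := fun n => (f n).1.2
  have hNpos : ∀ n, 0 < N n := fun n => (f n).2.1
  have hg0 : ∀ n, g n 0 = a := fun n => (f n).2.2.1
  have hg1 : ∀ n, ∀ i ≥ N n, g n i = b := fun n => (f n).2.2.2.1
  have hgd : ∀ n, ∀ i, dist (g n i) (g n (i + 1)) < δ n := fun n => (f n).2.2.2.2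
  have hNN : ∀ n, N (n + 1) = M n (f n) * N n := fun n => hF1 n (f n)
  have hgg : ∀ n i, dist (g (n + 1) i) (g n (i / M n (f n))) < e / 2 / 2 ^ n :=
    fun n i => hF2 n (f n) i
  let G : ℕ → ℝ → X := fun n t => g n ⌊t * N n⌋₊
  have hGG : ∀ t n, dist (G n t) (G (n + 1) t) ≤ e / 2 / 2 ^ n := by
    intro t n
    rw [dist_comm]
    have h1 := hgg n ⌊t * N (n + 1)⌋₊
    have h2 : ⌊t * N (n + 1)⌋₊ / M n (f n) = ⌊t * N n⌋₊ := by
      rw [← Nat.floor_div_natCast, hNN]
      congr 1
      have : ((M n (f n) : ℕ) : ℝ) ≠ 0 := by exact_mod_cast (hM n (f n)).ne'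
      push_cast
      field_simp
    rw [h2] at h1
    exact h1.le
  have hlim : ∀ t, ∃ x, Tendsto (fun n => G n t) atTop (𝓝 x) := fun t =>
    cauchySeq_tendsto_of_complete (cauchySeq_of_le_geometric_two (C := e) (hGG t))
  choose Γ hΓ using hlim
  have hdist : ∀ t n, dist (G n t) (Γ t) ≤ e / 2 ^ n := fun t n =>
    dist_le_of_le_geometric_two_of_tendsto (C := e) (hGG t) (hΓ t) n
  have hΓ0 : Γ 0 = a := by
    refine tendsto_nhds_unique (hΓ 0) ?_
    have : (fun n => G n 0) = fun _ => a := by
      funext n; simp only [G, zero_mul, Nat.floor_zero, hg0]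
    rw [this]; exact tendsto_const_nhds
  have hΓ1 : Γ 1 = b := by
    refine tendsto_nhds_unique (hΓ 1) ?_
    have : (fun n => G n 1) = fun _ => b := by
      funext n
      simp only [G, one_mul, Nat.floor_natCast]
      exact hg1 n _ le_rfl
    rw [this]; exact tendsto_const_nhds
  -- oscillation of G n
  have hosc : ∀ n (s t : ℝ), s ≤ t → t < s + 1 / N n → dist (G n s) (G n t) ≤ e / 2 / 2 ^ n := by
    intro n s t hst hts
    have hNn : (0 : ℝ) < N n := by exact_mod_cast hNpos n
    have h1 : ⌊s * N n⌋₊ ≤ ⌊t * N n⌋₊ := Nat.floor_mono (by nlinarith)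
    have h2 : ⌊t * N n⌋₊ ≤ ⌊s * N n⌋₊ + 1 := by
      by_cases hs : 0 ≤ s * N n
      · rw [← Nat.floor_add_one hs]
        apply Nat.floor_mono
        have : t * N n < (s + 1 / N n) * N n := by nlinarith
        rw [add_mul, one_div, inv_mul_cancel₀ hNn.ne'] at this
        exact this.le
      · have : t * N n < 1 := by
          have : t * N n < (s + 1 / N n) * N n := by nlinarith
          rw [add_mul, one_div, inv_mul_cancel₀ hNn.ne'] at this
          push Not at hs
          linarith
        rw [Nat.floor_eq_zero.mpr this]; omega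
    rcases (show ⌊t * N n⌋₊ = ⌊s * N n⌋₊ ∨ ⌊t * N n⌋₊ = ⌊s * N n⌋₊ + 1 by omega) with h | h
    · simp only [G, h, dist_self]; positivity
    · simp only [G, h]
      exact (hgd n _).le.trans (hδe n)
  have hcont : Continuous Γ := by
    rw [Metric.continuous_iff]
    intro s η hη
    obtain ⟨n, hn⟩ : ∃ n : ℕ, 3 * e / 2 ^ n < η := by
      have h1 : Tendsto (fun n : ℕ => 3 * e * (1 / 2 : ℝ) ^ n) atTop (𝓝 (3 * e * 0)) :=
        (tendsto_pow_atTop_nhds_zero_of_lt_one (by norm_num) (by norm_num)).const_mul _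
      rw [mul_zero] at h1
      obtain ⟨n, hn⟩ := (h1.eventually_lt_const hη).exists
      refine ⟨n, ?_⟩
      rw [one_div, inv_pow] at hn
      rw [div_eq_mul_inv]; exact hn
    have hNn : (0 : ℝ) < N n := by exact_mod_cast hNpos n
    refine ⟨1 / N n, by positivity, ?_⟩
    intro t hts
    have h1 : dist (G n t) (G n s) ≤ e / 2 / 2 ^ n := by
      rw [Real.dist_eq, abs_lt] at hts
      rcases le_total s t with h | h
      · rw [dist_comm]; exact hosc n s t h (by linarith)
      · exact hosc n t s h (by linarith)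
    have h2 := hdist t n
    have h3 := hdist s n
    have h4 : dist (Γ t) (Γ s) ≤ dist (Γ t) (G n t) + dist (G n t) (G n s) + dist (G n s) (Γ s) :=
      dist_triangle4 _ _ _ _
    rw [dist_comm (Γ t) (G n t)] at h4
    have h5 : e / 2 / 2 ^ n ≤ e / 2 ^ n := by
      apply div_le_div_of_nonneg_right _ (by positivity); linarith
    have h6 : 3 * e / 2 ^ n = e / 2 ^ n + e / 2 ^ n + e / 2 ^ n := by ring
    linarith
  have hrange : ∀ t, Γ t ∈ ball a (2 * e) := by
    intro t
    rw [mem_ball]
    have h1 := hdist t 0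
    rw [pow_zero, div_one] at h1
    have h2 : dist (G 0 t) a < e := by
      show dist (if ⌊t * N 0⌋₊ = 0 then a else b) a < e
      have h3 : δ 0 ≤ e / 2 := by simpa using hδe 0
      split_ifs
      · simpa using he
      · rw [dist_comm]; linarith
    calc dist (Γ t) a ≤ dist (Γ t) (G 0 t) + dist (G 0 t) a := dist_triangle _ _ _
      _ < 2 * e := by rw [dist_comm (Γ t)]; linarith
  refine ⟨⟨⟨fun t => Γ t, hcont.comp continuous_subtype_val⟩, by simpa using hΓ0,
    by simpa using hΓ1⟩, fun t => hrange t⟩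

/-- A compact locally connected metric space is locally path connected. -/
theorem locPathConnected_of_compact (X : Type*) [MetricSpace X] [CompactSpace X]
    [LocallyConnectedSpace X] : LocallyPathConnectedSpace X := by
  rw [locallyPathConnectedSpace_iff_pathComponentIn_mem_nhds]
  intro x u hu hxu
  obtain ⟨r, hr, hru⟩ := Metric.isOpen_iff.mp hu x hxu
  obtain ⟨d, hd, hd2⟩ := exists_joinedIn X (e := r / 2) (by positivity)
  refine mem_of_superset (ball_mem_nhds x hd) ?_
  intro y hy
  have h1 := hd2 x y (by rw [dist_comm]; exact hy)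
  exact h1.mono (by rw [mul_div_cancel₀ r two_ne_zero]; exact hru)

end Pool.Agent.Helper39.Peano
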